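import Mathlib

/-! # Project LM, S5: from dyadic numbers to all `X` -/

open MeasureTheory Real Set Filter Topology
open scoped ENNReal NNReal

set_option autoImplicit false

namespace Pool.Agent.Helper75.LM

theorem dyadic {Φ : ℝ → ℝ≥0∞} {A : ℝ} (hA : 0 ≤ A) (h : ∃ C : ℝ, ∀ p : ℕ, ∫⁻ R in Icc ((2 : ℝ) ^ p) (2 * 2 ^ p), Φ R ≤ ENNReal.ofReal (C * ((2 : ℝ) ^ p) ^ A)) :
    ∃ C : ℝ, ∀ X : ℝ, 1 ≤ X → ∫⁻ R in Icc X (2 * X), Φ R ≤ ENNReal.ofReal (C * X ^ A) := by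
  obtain ⟨C₀, hC₀⟩ := h
  set C : ℝ := max C₀ 0 with hCdef
  have hC0 : 0 ≤ C := le_max_right _ _
  have hC : ∀ p : ℕ, ∫⁻ R in Icc ((2 : ℝ) ^ p) (2 * 2 ^ p), Φ R ≤ ENNReal.ofReal (C * ((2 : ℝ) ^ p) ^ A) := fun p =>
    (hC₀ p).trans (ENNReal.ofReal_le_ofReal (mul_le_mul_of_nonneg_right (le_max_left _ _) (by positivity)))
  refine ⟨C + C * 2 ^ A, fun X hX => ?_⟩
  have hX0 : 0 < X := by linarith
  obtain ⟨p, hp1, hp2⟩ := exists_nat_pow_near hX (by norm_num : (1 : ℝ) < 2)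
  have hsub : Icc X (2 * X) ⊆ Icc ((2 : ℝ) ^ p) (2 * 2 ^ p) ∪ Icc ((2 : ℝ) ^ (p + 1)) (2 * 2 ^ (p + 1)) := by
    intro R hR
    have hp2' : X ≤ 2 * (2 : ℝ) ^ p := by
      have := hp2.le
      rw [pow_succ] at this
      linarith
    rcases le_total R (2 * 2 ^ p) with h1 | h1
    · exact Or.inl ⟨hp1.trans hR.1, h1⟩
    · refine Or.inr ⟨?_, ?_⟩
      · rw [pow_succ]
        linarith
      · have := hR.2
        rw [pow_succ]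
        linarith
  have e1 : ((2 : ℝ) ^ p) ^ A ≤ X ^ A := rpow_le_rpow (by positivity) hp1 hA
  have e2 : ((2 : ℝ) ^ (p + 1)) ^ A ≤ 2 ^ A * X ^ A := by
    rw [← mul_rpow (by norm_num) hX0.le]
    refine rpow_le_rpow (by positivity) ?_ hA
    rw [pow_succ]
    linarith
  calc ∫⁻ R in Icc X (2 * X), Φ R
      ≤ ∫⁻ R in Icc ((2 : ℝ) ^ p) (2 * 2 ^ p) ∪ Icc ((2 : ℝ) ^ (p + 1)) (2 * 2 ^ (p + 1)), Φ R := lintegral_mono_set hsub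
    _ ≤ (∫⁻ R in Icc ((2 : ℝ) ^ p) (2 * 2 ^ p), Φ R) + ∫⁻ R in Icc ((2 : ℝ) ^ (p + 1)) (2 * 2 ^ (p + 1)), Φ R := lintegral_union_le _ _ _
    _ ≤ ENNReal.ofReal (C * ((2 : ℝ) ^ p) ^ A) + ENNReal.ofReal (C * ((2 : ℝ) ^ (p + 1)) ^ A) := add_le_add (hC p) (hC (p + 1))
    _ = ENNReal.ofReal (C * ((2 : ℝ) ^ p) ^ A + C * ((2 : ℝ) ^ (p + 1)) ^ A) := (ENNReal.ofReal_add (by positivity) (by positivity)).symm
    _ ≤ ENNReal.ofReal ((C + C * 2 ^ A) * X ^ A) := by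
        refine ENNReal.ofReal_le_ofReal ?_
        have f1 := mul_le_mul_of_nonneg_left e1 hC0
        have f2 := mul_le_mul_of_nonneg_left e2 hC0
        calc C * ((2 : ℝ) ^ p) ^ A + C * ((2 : ℝ) ^ (p + 1)) ^ A ≤ C * X ^ A + C * (2 ^ A * X ^ A) := add_le_add f1 f2
          _ = (C + C * 2 ^ A) * X ^ A := by ring

end Pool.Agent.Helper75.LM
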