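import Pool.Agent.Helper33.LM.S6
import Pool.Agent.Helper60.AD.Meas

/-!
# Project LM: the error of a lattice at the worst centre is a Borel function of the radius
-/

open MeasureTheory Real Set Filter Topology
open scoped ENNReal NNReal

set_option autoImplicit false

namespace Pool.Agent.Helper75.LM

open Pool.Agent.Helper22.AE
open Pool.Agent.Helper22.AC (cntc)
open Pool.Agent.Helper92.LA (dl fdet_dl lcnt)
open Pool.Agent.Helper22.LP (Fr fdet fv cp nr tr hom Hf)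

/-- a point of the oval, in the coordinates of a frame -/
theorem hf_pt {H : ℝ → ℝ} {v : ℝ × ℝ} (hv : ∀ t : ℝ, v.1 * cos t + v.2 * sin t ≤ H t) (f : Fr) :
    ∀ t : ℝ, (v.1 * f.1.1 + v.2 * f.1.2) * cos t + (v.1 * f.2.1 + v.2 * f.2.2) * sin t ≤ Hf H f t := by
  intro t
  set w : ℝ × ℝ := fv f (cos t) (sin t) with hw
  have h1 : nr w * cos (tr w) = w.1 := Complex.norm_mul_cos_arg (cp w)
  have h2 : nr w * sin (tr w) = w.2 := Complex.norm_mul_sin_arg (cp w)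
  have h3 : 0 ≤ nr w := norm_nonneg _
  have h4 := mul_le_mul_of_nonneg_left (hv (tr w)) h3
  have h5 : Hf H f t = nr w * H (tr w) := rfl
  have h6 : w.1 = cos t * f.1.1 + sin t * f.2.1 := rfl
  have h7 : w.2 = cos t * f.1.2 + sin t * f.2.2 := rfl
  rw [h5]
  calc (v.1 * f.1.1 + v.2 * f.1.2) * cos t + (v.1 * f.2.1 + v.2 * f.2.2) * sin t
      = v.1 * w.1 + v.2 * w.2 := by
        rw [h6, h7]
        ring
    _ = nr w * (v.1 * cos (tr w) + v.2 * sin (tr w)) := by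
        rw [← h1, ← h2]
        ring
    _ ≤ nr w * H (tr w) := h4

/-- the coordinates -/
theorem coord_surj {f : Fr} (h : fdet f ≠ 0) :
    Function.Surjective fun c : ℝ × ℝ => ((f.1.1 * c.1 + f.1.2 * c.2, f.2.1 * c.1 + f.2.2 * c.2) : ℝ × ℝ) := by
  intro d
  refine ⟨((f.2.2 * d.1 - f.1.2 * d.2) / fdet f, (f.1.1 * d.2 - f.2.1 * d.1) / fdet f), ?_⟩
  have e : fdet f = f.1.1 * f.2.2 - f.1.2 * f.2.1 := rfl
  rw [e] at h ⊢
  ext
  · simp only
    rw [← mul_div_assoc, ← mul_div_assoc, ← add_div, div_eq_iff h]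
    ring
  · simp only
    rw [← mul_div_assoc, ← mul_div_assoc, ← add_div, div_eq_iff h]
    ring

/-- the supremum over the centres, lattice and frame -/
theorem sup_dl_eq {H : ℝ → ℝ} (hp : Function.Periodic H (2 * π)) {ab : Fr} (h : fdet ab ≠ 0) (F : ℝ → ℝ≥0∞) (R : ℝ) :
    ⨆ c : ℝ × ℝ, F |lcnt ab H c R - area H * R ^ 2 / abs (fdet ab)| =
      ⨆ c : ℝ × ℝ, F |cntc (Hf H (dl ab)) c R - area (Hf H (dl ab)) * R ^ 2| := by
  have hdl : fdet (dl ab) ≠ 0 := by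
    rw [fdet_dl h]
    positivity
  rw [← (coord_surj hdl).iSup_comp (g := fun c : ℝ × ℝ => F |cntc (Hf H (dl ab)) c R - area (Hf H (dl ab)) * R ^ 2|)]
  exact iSup_congr fun c => by rw [Pool.Agent.Helper33.LM.err_dl hp h]

/-- the error at the worst centre is a Borel function of the radius -/
theorem latt_meas {H : ℝ → ℝ} (h2 : ContDiff ℝ 2 H) (hp : Function.Periodic H (2 * π)) (hr : ∀ t, 0 < H t + deriv (deriv H) t)
    {ab : Fr} (h : fdet ab ≠ 0) {p : ℝ} (hp0 : 0 < p) :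
    Measurable (fun R : ℝ => ⨆ c : ℝ × ℝ, ENNReal.ofReal (|lcnt ab H c R - area H * R ^ 2 / abs (fdet ab)| ^ p)) := by
  obtain ⟨v, hv⟩ := Pool.Agent.Helper60.AD.exists_pt h2 hp hr
  have h1 := Pool.Agent.Helper60.AD.worst_measurable (H := Hf H (dl ab))
    (v := (v.1 * (dl ab).1.1 + v.2 * (dl ab).1.2, v.1 * (dl ab).2.1 + v.2 * (dl ab).2.2)) (hf_pt hv (dl ab)) hp0
  have h3 : (fun R : ℝ => ⨆ c : ℝ × ℝ, ENNReal.ofReal (|lcnt ab H c R - area H * R ^ 2 / abs (fdet ab)| ^ p)) =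
      fun R : ℝ => ⨆ c : ℝ × ℝ, ENNReal.ofReal (|cntc (Hf H (dl ab)) c R - area (Hf H (dl ab)) * R ^ 2| ^ p) := by
    funext R
    exact sup_dl_eq hp h (fun t => ENNReal.ofReal (t ^ p)) R
  rw [h3]
  exact h1

end Pool.Agent.Helper75.LM
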