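import Pool.Agent.Helper75.LM.Defs

/-! # Project LM, S4: the numbers for the small and the large frequencies, `θ = 9/17` and `θ = 5/9` -/

open MeasureTheory Real Set Filter Topology

set_option autoImplicit false

namespace Pool.Agent.Helper75.LM

open Pool.Agent.Helper75.TW (TB F12 tb_num)

/-- a term below the size needed for the small frequencies -/
theorem sb_num {P q : ℕ} {θ a b ν X N : ℝ} (hX : 1 ≤ X) (hN : 1 ≤ N) (h2 : N ≤ X ^ ν) (hb : (q : ℝ) ≤ b)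
    (c2 : a + (b - q) * ν ≤ ((P : ℝ) - 2) * (θ - 1 / 2)) : X ^ a * N ^ b ≤ SB P q θ X N := by
  have hX0 : 0 < X := by linarith
  have hN0 : 0 < N := by linarith
  have e1 : N ^ b = N ^ (b - q) * N ^ q := by
    rw [← rpow_natCast N q, ← rpow_add hN0]
    congr 1
    ring
  have e2 : N ^ (b - q) ≤ X ^ ((b - q) * ν) := by
    calc N ^ (b - q) ≤ (X ^ ν) ^ (b - q) := rpow_le_rpow hN0.le h2 (by linarith)
      _ = X ^ ((b - q) * ν) := by rw [← rpow_mul hX0.le, mul_comm]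
  unfold SB
  rw [e1, ← mul_assoc]
  refine mul_le_mul_of_nonneg_right ?_ (by positivity)
  calc X ^ a * N ^ (b - q) ≤ X ^ a * X ^ ((b - q) * ν) := mul_le_mul_of_nonneg_left e2 (by positivity)
    _ = X ^ (a + (b - q) * ν) := (rpow_add hX0 _ _).symm
    _ ≤ _ := rpow_le_rpow_of_exponent_le hX c2

theorem f20_eq {X N : ℝ} (hX : 1 ≤ X) (hN : 1 ≤ N) :
    X * (N ^ 20 + N ^ 34 * (X * N) ^ (-(7 / 4) : ℝ)) = X ^ (1 : ℝ) * N ^ (20 : ℝ) + X ^ (-(3 / 4) : ℝ) * N ^ (129 / 4 : ℝ) := by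
  have hX0 : 0 < X := by linarith
  have hN0 : 0 < N := by linarith
  have b1 : N ^ (20 : ℝ) = N ^ (20 : ℕ) := by
    rw [← rpow_natCast]
    norm_num
  have b2 : N ^ (34 : ℕ) * N ^ (-(7 / 4) : ℝ) = N ^ (129 / 4 : ℝ) := by
    rw [← rpow_natCast, ← rpow_add hN0]
    norm_num
  have a1 : X ^ (-(3 / 4) : ℝ) = X * X ^ (-(7 / 4) : ℝ) := by
    rw [show (-(3 / 4) : ℝ) = 1 + -(7 / 4) by norm_num, rpow_add hX0, rpow_one]
  rw [mul_rpow hX0.le hN0.le, a1, b1, rpow_one, ← b2]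
  ring

theorem f12_eq {X N : ℝ} (hX : 1 ≤ X) : F12 X N = X ^ (1 : ℝ) * N ^ (12 : ℝ) + X ^ (-(2 / 3) : ℝ) * N ^ (17 : ℝ) := by
  have hX0 : 0 < X := by linarith
  have a1 : X ^ (-(2 / 3) : ℝ) = X * X ^ (-(5 / 3) : ℝ) := by
    rw [show (-(2 / 3) : ℝ) = 1 + -(5 / 3) by norm_num, rpow_add hX0, rpow_one]
  have b1 : N ^ (12 : ℝ) = N ^ (12 : ℕ) := by
    rw [← rpow_natCast]
    norm_num
  have b2 : N ^ (17 : ℝ) = N ^ (17 : ℕ) := by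
    rw [← rpow_natCast]
    norm_num
  rw [a1, b1, b2, rpow_one]
  unfold F12
  ring

theorem num_a {X N : ℝ} (hX : 1 ≤ X) (hN : 1 ≤ N) (h2 : N ≤ X ^ (1 / 17 : ℝ)) :
    X * (N ^ 20 + N ^ 34 * (X * N) ^ (-(7 / 4) : ℝ)) ≤ 2 * SB 36 20 (9 / 17) X N := by
  rw [f20_eq hX hN]
  have t1 : X ^ (1 : ℝ) * N ^ (20 : ℝ) ≤ SB 36 20 (9 / 17) X N :=
    sb_num hX hN h2 (by push_cast; norm_num) (by push_cast; norm_num)
  have t2 : X ^ (-(3 / 4) : ℝ) * N ^ (129 / 4 : ℝ) ≤ SB 36 20 (9 / 17) X N :=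
    sb_num hX hN h2 (by push_cast; norm_num) (by push_cast; norm_num)
  linarith

theorem num_b {X N : ℝ} (hX : 1 ≤ X) (hN : 1 ≤ N) (h1 : X ^ (1 / 17 : ℝ) ≤ N) (h2 : N ≤ X ^ (1 / 4 : ℝ)) :
    X * (N ^ 20 + N ^ 34 * (X * N) ^ (-(7 / 4) : ℝ)) ≤ 2 * TB 20 (9 / 17) X N := by
  rw [f20_eq hX hN]
  have hN0 : 0 < N := by linarith
  have t1 : X ^ (1 : ℝ) * N ^ (20 : ℝ) ≤ TB 20 (9 / 17) X N :=
    tb_num hX hN0 h1 h2 (by push_cast; norm_num) (by push_cast; norm_num)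
  have t2 : X ^ (-(3 / 4) : ℝ) * N ^ (129 / 4 : ℝ) ≤ TB 20 (9 / 17) X N :=
    tb_num hX hN0 h1 h2 (by push_cast; norm_num) (by push_cast; norm_num)
  linarith

theorem num_c {X N : ℝ} (hX : 1 ≤ X) (hN : 1 ≤ N) (h1 : X ^ (1 / 4 : ℝ) ≤ N) (h2 : N ≤ X ^ (26 / 51 : ℝ)) : F12 X N ≤ 2 * TB 12 (9 / 17) X N := by
  rw [f12_eq hX]
  have hN0 : 0 < N := by linarith
  have t1 : X ^ (1 : ℝ) * N ^ (12 : ℝ) ≤ TB 12 (9 / 17) X N :=
    tb_num hX hN0 h1 h2 (by push_cast; norm_num) (by push_cast; norm_num)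
  have t2 : X ^ (-(2 / 3) : ℝ) * N ^ (17 : ℝ) ≤ TB 12 (9 / 17) X N :=
    tb_num hX hN0 h1 h2 (by push_cast; norm_num) (by push_cast; norm_num)
  linarith

theorem num_d {X N : ℝ} (hX : 1 ≤ X) (hN : 1 ≤ N) (h2 : N ≤ X ^ (1 / 9 : ℝ)) : F12 X N ≤ 2 * SB 20 12 (5 / 9) X N := by
  rw [f12_eq hX]
  have t1 : X ^ (1 : ℝ) * N ^ (12 : ℝ) ≤ SB 20 12 (5 / 9) X N :=
    sb_num hX hN h2 (by push_cast; norm_num) (by push_cast; norm_num)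
  have t2 : X ^ (-(2 / 3) : ℝ) * N ^ (17 : ℝ) ≤ SB 20 12 (5 / 9) X N :=
    sb_num hX hN h2 (by push_cast; norm_num) (by push_cast; norm_num)
  linarith

theorem num_e {X N : ℝ} (hX : 1 ≤ X) (hN : 1 ≤ N) (h1 : X ^ (1 / 9 : ℝ) ≤ N) (h2 : N ≤ X ^ (26 / 51 : ℝ)) : F12 X N ≤ 2 * TB 12 (5 / 9) X N := by
  rw [f12_eq hX]
  have hN0 : 0 < N := by linarith
  have t1 : X ^ (1 : ℝ) * N ^ (12 : ℝ) ≤ TB 12 (5 / 9) X N :=
    tb_num hX hN0 h1 h2 (by push_cast; norm_num) (by push_cast; norm_num)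
  have t2 : X ^ (-(2 / 3) : ℝ) * N ^ (17 : ℝ) ≤ TB 12 (5 / 9) X N :=
    tb_num hX hN0 h1 h2 (by push_cast; norm_num) (by push_cast; norm_num)
  linarith

end Pool.Agent.Helper75.LM
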